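import Pool.Agent.H19.IntKEx

set_option autoImplicit false

namespace Pool.Agent.Results.MP_f9f43c_al.Counterexample

open Polynomial TensorProduct Pool.Agent.H19.IntK

/-- There are an integrally closed domain `D` and a torsion-free module-finite `D`-algebra `A ⊇ D`
with `Int_K(A)` integrally closed and `A ≠ A'`. -/
theorem result : ∃ (D K A : Type) (_ : CommRing D) (_ : IsDomain D) (_ : IsIntegrallyClosed D)
    (_ : Field K) (_ : Algebra D K) (_ : IsFractionRing D K) (_ : Ring A) (_ : Algebra D A)
    (_ : FaithfulSMul D A) (_ : Module.IsTorsionFree D A) (_ : Module.Finite D A),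
    IsIntegrallyClosed (IntK D K A) ∧
      ∃ b : K ⊗[D] A, IsIntegral D b ∧ ∀ a : A, b ≠ (1 : K) ⊗ₜ[D] a := by
  refine ⟨ℚ[X], RatFunc ℚ, Cusp, _, inferInstance, inferInstance, _, _, inferInstance, _, _,
    inferInstance, inferInstance, inferInstance, ?_, beta, beta_int, fun a h => ?_⟩
  · refine IsIntegrallyClosed.of_equiv (RingEquiv.ofBijective
      ((mapRingHom (algebraMap ℚ[X] (RatFunc ℚ))).codRestrict (IntK ℚ[X] (RatFunc ℚ) Cusp) map_mem)
      ⟨fun p q h => map_injective _ (IsFractionRing.injective _ _) (congrArg Subtype.val h),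
        fun f => ?_⟩)
    obtain ⟨g, hg⟩ := mem_lifts (le_IntK' f.2)
    exact ⟨g, Subtype.ext hg⟩
  · have h1 := beta_smul
    rw [h, ← tmul_smul] at h1
    simpa using congrArg (fun z : Cusp => z.im.eval 0) (inj h1)

end Pool.Agent.Results.MP_f9f43c_al.Counterexample
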